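import Pool.Agent.W757.BL.Fin
import Pool.Agent.W237.BL.GCT
import Pool.Agent.W237.BL.ACC

/-!
# Stretched billiard tables: final statements
-/

set_option autoImplicit false

namespace Pool.Agent.W757.BL

open Set Filter Topology
open scoped ContDiff
open Pool.Agent.H719R3.BG

theorem pACC : S_ACC := W237.BL.ACC.main W237.BL.GCT.main pGAN

/-- for every `N` the exceptional parameters are finite in number -/
theorem fin {x y x' y' : ℝ → ℝ} {L : ℝ} (h : Cv x y x' y' L)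
    (hx : AnalyticOnNhd ℝ x univ)
    (hy : AnalyticOnNhd ℝ y univ) (hE : ¬ IsEllipse (range fun s : ℝ => (⟨x s, y s⟩ : ℂ)))
    (N : ℕ) (hN : 1 ≤ N) :
    {s : ℝ | 0 < s ∧ ∃ m, Cst (fun r => s * x r) y L (N + 1) m}.Finite := by
  refine (finite_aux pCF pFAM pGC pACC t_EXT pDYN W293.BL.t_CON W699.BLEll.t_ELL
    h hx hy hE N hN).subset ?_
  rintro s ⟨hs, hm⟩
  exact ⟨hs, (pGC x y x' y' L N s h hs hN).1 hm⟩

theorem table_stretch {x y x' y' : ℝ → ℝ} {L t : ℝ} {Ω : Set ℂ} (h : Cv x y x' y' L)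
    (hΩ : IsOpen Ω) (hc : Convex ℝ Ω)
    (hb : Bornology.IsBounded Ω) (hne : Ω.Nonempty) (hfr : range (pt x y) = frontier Ω)
    (ht : 0 < t) :
    range (pt (fun s => t * x s) y) = frontier (stretch t '' Ω) ∧ Table (stretch t '' Ω) := by
  have hcv := cv_stretch h ht
  have hcf := pCF _ _ _ _ L hcv
  have himg : stretch t '' Ω = stretchL ht.ne' '' Ω := rfl
  have hfr' : range (pt (fun s => t * x s) y) = frontier (stretch t '' Ω) := by
    have e1 : stretchL ht.ne' '' frontier Ω = frontier (stretchL ht.ne' '' Ω) :=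
      (stretchL ht.ne').toHomeomorph.image_frontier Ω
    rw [himg, ← e1, ← hfr, ← range_comp]
    rfl
  refine ⟨hfr', ?_⟩
  refine W714.BL.t_TAB _ _ _ _ L _ hcv hcf ?_ ?_ ?_ (hne.image _) hfr'
  · rw [himg]; exact (stretchL ht.ne').toHomeomorph.isOpenMap _ hΩ
  · rw [himg]; exact hc.linear_image ((stretchL ht.ne').toLinearEquiv : ℂ →ₗ[ℝ] ℂ)
  · rw [himg]; exact (stretchL ht.ne').lipschitz.isBounded_image hb

theorem cnt {x y x' y' : ℝ → ℝ} {L : ℝ} {Ω : Set ℂ}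
    (h : Cv x y x' y' L) (hx : AnalyticOnNhd ℝ x univ)
    (hy : AnalyticOnNhd ℝ y univ) (hΩ : IsOpen Ω) (hc : Convex ℝ Ω)
    (hb : Bornology.IsBounded Ω) (hne : Ω.Nonempty) (hfr : range (pt x y) = frontier Ω)
    (hE : ¬ IsEllipse (frontier Ω)) :
    {t : ℝ | 0 < t ∧ ∃ (𝒦 : Set (Set ℂ)) (U : Set ℂ),
      CausticCollar (stretch t '' Ω) 𝒦 U}.Countable := by
  have hE' : ¬ IsEllipse (range fun s : ℝ => (⟨x s, y s⟩ : ℂ)) := by
    have : (range fun s : ℝ => (⟨x s, y s⟩ : ℂ)) = frontier Ω := hfr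
    rwa [this]
  refine (countable_iUnion (ι := ℕ) (t := fun N =>
    {s : ℝ | 0 < s ∧ ∃ m, Cst (fun r => s * x r) y L (N + 1 + 1) m}) fun N =>
      (fin h hx hy hE' (N + 1) (by omega)).countable).mono ?_
  rintro t ⟨ht, 𝒦, U, hC⟩
  obtain ⟨hfr', hT⟩ := table_stretch h hΩ hc hb hne hfr ht
  have hcv := cv_stretch h ht
  obtain ⟨n, hn, m, hm⟩ := pCOL _ _ _ _ L _ 𝒦 U hcv (pCF _ _ _ _ L hcv) hT hfr' hC
  obtain ⟨N, rfl⟩ : ∃ N, n = N + 1 + 1 := ⟨n - 2, by omega⟩
  rw [mem_iUnion]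
  exact ⟨N, ht, m, hm⟩

/-- an invariant circle which consists of closed trajectories gives a constant greatest
perimeter -/
theorem inv_cst {x y x' y' : ℝ → ℝ} {L : ℝ} (h : Cv x y x' y' L) {f : ℝ → ℝ}
    (hf : Inv x y x' y' L f) {n : ℕ} (hn : 1 ≤ n) (hp : ∀ s, f^[n] s = s + L) :
    ∃ m, Cst x y L n m := by
  have hcf := pCF _ _ _ _ L h
  have hpol : ∀ a, Pol L n (fun i => f^[i] a) := by
    intro a
    refine ⟨fun i => ?_, fun i => ?_⟩
    · rw [Function.iterate_succ_apply']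
      exact hf.lo _
    · show f^[i + n] a = f^[i] a + L
      rw [Function.iterate_add_apply, hp]
      clear hp hn
      induction i with
      | zero => rfl
      | succ i ih => rw [Function.iterate_succ_apply', ih, hf.per, Function.iterate_succ_apply']
  have hc := fun s₀ => pCAL x y x' y' L h hcf f hf n s₀ hn (hp s₀)
  refine ⟨SS x y n (fun i => f^[i] 0), hc 0, fun a => ⟨fun i => f^[i] a, hpol a, rfl, ?_⟩⟩
  exact le_antisymm (hc 0 _ (hpol a)) (hc a _ (hpol 0))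

end Pool.Agent.W757.BL
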