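import Mathlib
import Pool.Agent.H719R3.BG.Defs

/-!
# Definitions and statements for the project BL (stretched billiard tables)

A closed strictly convex plane curve is given by its coordinates `x`, `y` (and their derivatives
`x'`, `y'`), periodic with period `L`.
-/

set_option autoImplicit false

namespace Pool.Agent.W757.BL

open Set Filter Topology
open scoped ContDiff

/-! ## Curves, chords -/

/-- A closed strictly convex curve `(x, y)` with period `L`, counterclockwise, with continuous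
derivative `(x', y')`. -/
structure Cv (x y x' y' : ℝ → ℝ) (L : ℝ) : Prop where
  L0 : 0 < L
  dx : ∀ s, HasDerivAt x (x' s) s
  dy : ∀ s, HasDerivAt y (y' s) s
  cx : Continuous x'
  cy : Continuous y'
  px : ∀ s, x (s + L) = x s
  py : ∀ s, y (s + L) = y s
  conv : ∀ s t, s < t → t < s + L → 0 < x' s * (y t - y s) - y' s * (x t - x s)

/-- length of the chord -/
noncomputable def hh (x y : ℝ → ℝ) (a b : ℝ) : ℝ := √((x b - x a) ^ 2 + (y b - y a) ^ 2)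

/-- partial derivative of `hh` in its first argument -/
noncomputable def h1 (x y x' y' : ℝ → ℝ) (a b : ℝ) : ℝ :=
  -((x b - x a) * x' a + (y b - y a) * y' a) / hh x y a b

/-- partial derivative of `hh` in its second argument -/
noncomputable def h2 (x y x' y' : ℝ → ℝ) (a b : ℝ) : ℝ :=
  ((x b - x a) * x' b + (y b - y a) * y' b) / hh x y a b

/-- Facts about chords. -/
structure CF (x y x' y' : ℝ → ℝ) (L : ℝ) : Prop where
  per : ∀ a b, hh x y (a + L) (b + L) = hh x y a b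
  per1 : ∀ a b, hh x y (a + L) b = hh x y a b
  per2 : ∀ a b, hh x y a (b + L) = hh x y a b
  dper : ∀ a, x' (a + L) = x' a ∧ y' (a + L) = y' a
  cont : Continuous (fun p : ℝ × ℝ => hh x y p.1 p.2)
  pos : ∀ a b, a < b → b < a + L → 0 < hh x y a b
  /-- counterclockwise triangles -/
  orient : ∀ a b c, a < b → b < c → c < a + L →
    0 < (x b - x a) * (y c - y a) - (y b - y a) * (x c - x a)
  conv' : ∀ s t, s < t → t < s + L → 0 < x' t * (y s - y t) - y' t * (x s - x t)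
  /-- derivative of the length along a line -/
  dline : ∀ a b α β, a < b → b < a + L →
    HasDerivAt (fun τ : ℝ => hh x y (a + τ * α) (b + τ * β))
      (h1 x y x' y' a b * α + h2 x y x' y' a b * β) 0
  c1 : ContinuousOn (fun p : ℝ × ℝ => h1 x y x' y' p.1 p.2) {p | p.1 < p.2 ∧ p.2 < p.1 + L}
  c2 : ContinuousOn (fun p : ℝ × ℝ => h2 x y x' y' p.1 p.2) {p | p.1 < p.2 ∧ p.2 < p.1 + L}
  m1 : ∀ a b b', a < b → b < b' → b' < a + L → h1 x y x' y' a b < h1 x y x' y' a b'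
  m2 : ∀ a a' b, a < a' → a' < b → b < a + L → h2 x y x' y' a b < h2 x y x' y' a' b
  quad : ∀ a b c d, a ≤ b → b ≤ c → c ≤ d → d ≤ a + L →
    hh x y a d + hh x y b c ≤ hh x y a c + hh x y b d
  tri : ∀ a b c, a < b → b < c → c ≤ a + L → hh x y a c < hh x y a b + hh x y b c

/-- task ORI: three points in counterclockwise order; tangent at the end point of a chord -/
def S_ORI : Prop := ∀ (x y x' y' : ℝ → ℝ) (L : ℝ), Cv x y x' y' L →
  (∀ s, x' (s + L) = x' s ∧ y' (s + L) = y' s) ∧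
  (∀ s t, s < t → t < s + L → 0 < x' t * (y s - y t) - y' t * (x s - x t)) ∧
  ∀ a b c, a < b → b < c → c < a + L →
    0 < (x b - x a) * (y c - y a) - (y b - y a) * (x c - x a)

/-- task CF -/
def S_CF : Prop := ∀ (x y x' y' : ℝ → ℝ) (L : ℝ), Cv x y x' y' L → CF x y x' y' L

/-! ## Closed polygons -/

/-- `c` is the sequence of the parameters of the vertices of a closed polygon with `n` vertices
which winds once around the curve. -/
structure Pol (L : ℝ) (n : ℕ) (c : ℕ → ℝ) : Prop where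
  mono : ∀ i, c i < c (i + 1)
  per : ∀ i, c (i + n) = c i + L

/-- its perimeter -/
noncomputable def SS (x y : ℝ → ℝ) (n : ℕ) (c : ℕ → ℝ) : ℝ :=
  ∑ i ∈ Finset.range n, hh x y (c i) (c (i + 1))

/-- `m` is the greatest perimeter, and it is attained by a polygon through every boundary point. -/
structure Cst (x y : ℝ → ℝ) (L : ℝ) (n : ℕ) (m : ℝ) : Prop where
  le : ∀ c, Pol L n c → SS x y n c ≤ m
  ex : ∀ a, ∃ c, Pol L n c ∧ c 0 = a ∧ SS x y n c = m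

/-- first variation of the perimeter -/
def S_FV : Prop := ∀ (x y x' y' : ℝ → ℝ) (L : ℝ) (n : ℕ) (m : ℝ), Cv x y x' y' L →
  CF x y x' y' L → 2 ≤ n → (∀ c, Pol L n c → SS x y n c ≤ m) → ∀ c, Pol L n c → SS x y n c = m →
  ∀ i, h2 x y x' y' (c i) (c (i + 1)) + h1 x y x' y' (c (i + 1)) (c (i + 2)) = 0

/-- maximal polygons with the same initial vertex are equal; maximal polygons do not cross -/
def S_AUB : Prop := ∀ (x y x' y' : ℝ → ℝ) (L : ℝ) (n : ℕ) (m : ℝ), Cv x y x' y' L →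
  CF x y x' y' L → 2 ≤ n → (∀ c, Pol L n c → SS x y n c ≤ m) →
  ∀ c d, Pol L n c → SS x y n c = m → Pol L n d → SS x y n d = m →
    (c 0 = d 0 → c = d) ∧ (c 0 < d 0 → ∀ i, c i < d i)

/-- An invariant circle of the billiard map all of whose trajectories close after `n` bounces and
one turn, and are polygons of greatest perimeter `m`. -/
structure Fam (x y x' y' : ℝ → ℝ) (L : ℝ) (n : ℕ) (m : ℝ) (f : ℝ → ℝ) : Prop where
  mono : StrictMono f
  per : ∀ s, f (s + L) = f s + L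
  lo : ∀ s, s < f s
  hi : ∀ s, f s < s + L
  cyc : ∀ s, f^[n] s = s + L
  surj : Function.Surjective f
  law : ∀ s, h2 x y x' y' s (f s) + h1 x y x' y' (f s) (f (f s)) = 0
  max : ∀ s, SS x y n (fun i => f^[i] s) = m
  le : ∀ c, Pol L n c → SS x y n c ≤ m

def S_FAM : Prop := ∀ (x y x' y' : ℝ → ℝ) (L : ℝ) (n : ℕ) (m : ℝ), Cv x y x' y' L →
  CF x y x' y' L → 2 ≤ n → Cst x y L n m → ∃ f, Fam x y x' y' L n m f

/-! ## Polygons with a fixed vertex -/

/-- the offsets `0, u 0, ..., u (N-1), L` -/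
noncomputable def cs (L : ℝ) {N : ℕ} (u : Fin N → ℝ) : ℕ → ℝ
  | 0 => 0
  | (i + 1) => if h : i < N then u ⟨i, h⟩ else L

/-- weakly increasing offsets -/
def KK (L : ℝ) (N : ℕ) : Set (Fin N → ℝ) := {u | ∀ i, i ≤ N → cs L u i ≤ cs L u (i + 1)}

/-- perimeter of the polygon with initial vertex `a` and offsets `u` -/
noncomputable def PP (x y : ℝ → ℝ) (L : ℝ) {N : ℕ} (a : ℝ) (u : Fin N → ℝ) : ℝ :=
  ∑ i ∈ Finset.range (N + 1), hh x y (a + cs L u i) (a + cs L u (i + 1))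

/-- greatest perimeter of the polygons through the boundary point `a` of the table stretched by
the factor `t` in the direction of the first coordinate -/
noncomputable def GG (x y : ℝ → ℝ) (L : ℝ) (N : ℕ) (t a : ℝ) : ℝ :=
  sSup ((fun u : Fin N → ℝ => PP (fun s => t * x s) y L a u) '' KK L N)

/-- the polygons of greatest perimeter through a given point exist and are nondegenerate -/
def S_EXM : Prop := ∀ (x y x' y' : ℝ → ℝ) (L : ℝ) (N : ℕ), Cv x y x' y' L → CF x y x' y' L →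
  1 ≤ N → ∀ a, (∃ u ∈ KK L N, ∀ v ∈ KK L N, PP x y L a v ≤ PP x y L a u) ∧
    ∀ u ∈ KK L N, (∀ v ∈ KK L N, PP x y L a v ≤ PP x y L a u) →
      ∀ i, i ≤ N → cs L u i < cs L u (i + 1)

/-- conversion between the two kinds of polygons -/
def S_CNV : Prop := ∀ (x y x' y' : ℝ → ℝ) (L : ℝ) (N : ℕ), Cv x y x' y' L → CF x y x' y' L →
  (∀ c, Pol L (N + 1) c → ∃ u ∈ KK L N, (∀ i, i ≤ N → cs L u i < cs L u (i + 1)) ∧
    (∀ i, i ≤ N + 1 → c i = c 0 + cs L u i) ∧ PP x y L (c 0) u = SS x y (N + 1) c) ∧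
  (∀ (a : ℝ) (u : Fin N → ℝ), (∀ i, i ≤ N → cs L u i < cs L u (i + 1)) →
    ∃ c, Pol L (N + 1) c ∧ (∀ i, i ≤ N + 1 → c i = a + cs L u i) ∧
      PP x y L a u = SS x y (N + 1) c)

/-- `Cst` in terms of `GG` -/
def S_GC : Prop := ∀ (x y x' y' : ℝ → ℝ) (L : ℝ) (N : ℕ) (t : ℝ), Cv x y x' y' L → 0 < t →
  1 ≤ N → ((∃ m, Cst (fun s => t * x s) y L (N + 1) m) ↔
    ∀ a b, GG x y L N t a = GG x y L N t b)

/-- continuity of `GG` -/
def S_GCT : Prop := ∀ (x y x' y' : ℝ → ℝ) (L : ℝ) (N : ℕ), Cv x y x' y' L →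
  Continuous (fun p : ℝ × ℝ => GG x y L N p.1 p.2)

/-! ## Analytic dependence -/

/-- The lemma of Perron and Frobenius for the second variation. -/
def S_PF : Prop := ∀ (n : ℕ) (A B C : ℕ → ℝ), 2 ≤ n → (∀ i, i < n → 0 < B i) →
  (∀ w : ℕ → ℝ, (∀ i, w (i + n) = w i) →
    ∑ i ∈ Finset.range n, (A i * w i ^ 2 + 2 * B i * w i * w (i + 1) + C i * w (i + 1) ^ 2) ≤ 0) →
  ∀ w : ℕ → ℝ, (∀ i, w (i + n) = w i) → w 0 = 0 →
    ∑ i ∈ Finset.range n, (A i * w i ^ 2 + 2 * B i * w i * w (i + 1) + C i * w (i + 1) ^ 2) = 0 →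
    ∀ i, w i = 0

/-- second derivatives of the length of a chord: the mixed one is positive -/
def S_ED : Prop := ∀ (x y x' y' : ℝ → ℝ) (L : ℝ), Cv x y x' y' L → CF x y x' y' L →
  AnalyticOnNhd ℝ x univ → AnalyticOnNhd ℝ y univ → ∀ a b, a < b → b < a + L →
  ∃ A B C : ℝ, 0 < B ∧ ∀ α β : ℝ,
    deriv (deriv (fun τ : ℝ => hh x y (a + τ * α) (b + τ * β))) 0 =
      A * α ^ 2 + 2 * B * α * β + C * β ^ 2

/-- analyticity of the perimeter at nondegenerate polygons -/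
def S_PAN : Prop := ∀ (x y x' y' : ℝ → ℝ) (L : ℝ) (N : ℕ), Cv x y x' y' L →
  AnalyticOnNhd ℝ x univ → AnalyticOnNhd ℝ y univ → 1 ≤ N →
  ∀ (t a : ℝ) (u : Fin N → ℝ), 0 < t → (∀ i, i ≤ N → cs L u i < cs L u (i + 1)) →
    ContDiffAt ℝ ω (fun p : (ℝ × ℝ) × (Fin N → ℝ) => PP (fun s => p.1.1 * x s) y L p.1.2 p.2)
      ((t, a), u)

/-- the second variation with fixed initial vertex is nondegenerate at polygons of greatest
perimeter -/
def S_ND : Prop := ∀ (x y x' y' : ℝ → ℝ) (L : ℝ) (N : ℕ), Cv x y x' y' L → CF x y x' y' L →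
  AnalyticOnNhd ℝ x univ → AnalyticOnNhd ℝ y univ → 1 ≤ N → ∀ m : ℝ,
  (∀ (b : ℝ) (v : Fin N → ℝ), v ∈ KK L N → PP x y L b v ≤ m) →
  ∀ (a : ℝ) (u : Fin N → ℝ), (∀ i, i ≤ N → cs L u i < cs L u (i + 1)) → PP x y L a u = m →
  ∀ w : Fin N → ℝ, deriv (deriv (fun τ : ℝ => PP x y L a (u + τ • w))) 0 = 0 → w = 0

/-- general lemma: analytic dependence of the maximum on the parameters -/
def S_IFT : Prop := ∀ (N : ℕ) (P : (ℝ × ℝ) × (Fin N → ℝ) → ℝ) (K : Set (Fin N → ℝ))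
  (p₀ : ℝ × ℝ) (u₀ : Fin N → ℝ), IsCompact K → u₀ ∈ interior K → Continuous P →
  ContDiffAt ℝ ω P (p₀, u₀) →
  (∀ v ∈ K, P (p₀, v) ≤ P (p₀, u₀)) → (∀ v ∈ K, P (p₀, v) = P (p₀, u₀) → v = u₀) →
  (∀ w : Fin N → ℝ, deriv (deriv (fun τ : ℝ => P (p₀, u₀ + τ • w))) 0 = 0 → w = 0) →
  ContDiffAt ℝ ω (fun p : ℝ × ℝ => sSup ((fun u => P (p, u)) '' K)) p₀

/-- near a parameter for which the greatest perimeter is constant, `GG` is analytic -/
def S_GAN : Prop := ∀ (x y x' y' : ℝ → ℝ) (L : ℝ) (N : ℕ) (t : ℝ), Cv x y x' y' L →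
  AnalyticOnNhd ℝ x univ → AnalyticOnNhd ℝ y univ → 1 ≤ N → 0 < t →
  (∀ a b, GG x y L N t a = GG x y L N t b) →
  ∀ a, ContDiffAt ℝ ω (fun p : ℝ × ℝ => GG x y L N p.1 p.2) (t, a)

/-- accumulation points of the exceptional set are interior points -/
def S_ACC : Prop := ∀ (x y x' y' : ℝ → ℝ) (L : ℝ) (N : ℕ) (t : ℝ), Cv x y x' y' L →
  AnalyticOnNhd ℝ x univ → AnalyticOnNhd ℝ y univ → 1 ≤ N → 0 < t →
  AccPt t (𝓟 {s : ℝ | 0 < s ∧ ∀ a b, GG x y L N s a = GG x y L N s b}) →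
  ∀ᶠ s in 𝓝 t, 0 < s ∧ ∀ a b, GG x y L N s a = GG x y L N s b

/-- topology of the half line -/
def S_TOP : Prop := ∀ E : Set ℝ, E ⊆ Ioi 0 →
  (∀ t, 0 < t → AccPt t (𝓟 E) → ∀ᶠ s in 𝓝 t, s ∈ E) →
  (∃ δ > 0, ∀ t, 0 < t → t < δ → t ∉ E) → E.Countable

/-! ## The limit of flat tables -/

/-- position of the lowest point `b` and the highest point `e` -/
structure Ext (x y x' y' : ℝ → ℝ) (L b e : ℝ) : Prop where
  be : b < e
  eb : e < b + L
  up : ∀ s, b < s → s < e → 0 < y' s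
  dn : ∀ s, e < s → s < b + L → y' s < 0
  db : y' b = 0
  de : y' e = 0

def S_EXT : Prop := ∀ (x y x' y' : ℝ → ℝ) (L : ℝ), Cv x y x' y' L → CF x y x' y' L →
  ∃ b e, Ext x y x' y' L b e

/-- In flat tables the polygons of greatest perimeter have vertices near the lowest and the
highest point: no edge jumps over them. -/
def S_JMP : Prop := ∀ (x y x' y' : ℝ → ℝ) (L : ℝ) (n : ℕ) (b e : ℝ), Cv x y x' y' L →
  Ext x y x' y' L b e → 2 ≤ n → ∀ ε > 0, ∃ δ > 0, ∀ t, 0 < t → t < δ → ∀ (m : ℝ) (f : ℝ → ℝ),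
    Fam (fun s => t * x s) y (fun s => t * x' s) y' L n m f →
    (∀ s, s ≤ b - ε → f s < b + ε) ∧ (∀ s, s ≤ e - ε → f s < e + ε)

/-- limit of the reflection law in flat tables, on an arc where `y` is increasing (`σ = 1`) or
decreasing (`σ = -1`) -/
def S_LAW : Prop := ∀ (x y x' y' : ℝ → ℝ) (L : ℝ), Cv x y x' y' L → CF x y x' y' L →
  ∀ (l : Filter ℕ) (t p r : ℕ → ℝ) (q p₀ r₀ σ : ℝ), l.NeBot → Tendsto t l (𝓝 0) →
  (∀ k, 0 < t k) → Tendsto p l (𝓝 p₀) → Tendsto r l (𝓝 r₀) → (σ = 1 ∨ σ = -1) →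
  (∀ k, p k < q) → (∀ k, q < p k + L) → (∀ k, q < r k) → (∀ k, r k < q + L) →
  p₀ < q → q < r₀ → r₀ < p₀ + L → 0 < σ * (y q - y p₀) → 0 < σ * (y r₀ - y q) → y' q ≠ 0 →
  (∀ k, h2 (fun s => t k * x s) y (fun s => t k * x' s) y' (p k) q +
    h1 (fun s => t k * x s) y (fun s => t k * x' s) y' q (r k) = 0) →
  2 * x' q / y' q = (x q - x p₀) / (y q - y p₀) + (x r₀ - x q) / (y r₀ - y q)

/-- regularity at the lowest point: if `2x'/y' - (x - x(b))/(y - y(b))` has a limit from the right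
and a limit from the left at `b`, then these are equal -/
def S_MER : Prop := ∀ (x y x' y' : ℝ → ℝ) (L b e : ℝ), Cv x y x' y' L →
  AnalyticOnNhd ℝ x univ → AnalyticOnNhd ℝ y univ → Ext x y x' y' L b e →
  ∀ l r : ℝ,
  Tendsto (fun q => 2 * x' q / y' q - (x q - x b) / (y q - y b)) (𝓝[>] b) (𝓝 r) →
  Tendsto (fun q => 2 * x' q / y' q - (x q - x b) / (y q - y b)) (𝓝[<] b) (𝓝 l) → l = r

/-- the limit of the families: from one lowest point -/
def S_DYN : Prop := ∀ (x y x' y' : ℝ → ℝ) (L b e : ℝ) (n : ℕ), Cv x y x' y' L →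
  CF x y x' y' L → AnalyticOnNhd ℝ x univ → AnalyticOnNhd ℝ y univ → Ext x y x' y' L b e →
  2 ≤ n → ∀ (t m : ℕ → ℝ) (f : ℕ → ℝ → ℝ), (∀ k, 0 < t k) → Tendsto t atTop (𝓝 0) →
  (∀ k, Fam (fun s => t k * x s) y (fun s => t k * x' s) y' L n (m k) (f k)) →
  ∀ q, b < q → q < e → 2 * x' q / y' q = (x q - x b) / (y q - y b) + (x e - x q) / (y e - y q)

/-- the differential equation gives a conic -/
def S_CON : Prop := ∀ (x y x' y' : ℝ → ℝ) (L b e : ℝ), Cv x y x' y' L → CF x y x' y' L →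
  AnalyticOnNhd ℝ x univ → AnalyticOnNhd ℝ y univ → Ext x y x' y' L b e →
  (∀ q, b < q → q < e →
    2 * x' q / y' q = (x q - x b) / (y q - y b) + (x e - x q) / (y e - y q)) →
  ∃ A B C D E F : ℝ, 0 < A ∧ 0 < A * C - B ^ 2 ∧
    ∀ s, A * x s ^ 2 + 2 * B * x s * y s + C * y s ^ 2 + 2 * D * x s + 2 * E * y s + F = 0

/-- the range of the curve is an ellipse -/
def IsEllipse (S : Set ℂ) : Prop :=
  ∃ (c : ℂ) (a b d : ℝ), 0 < a ∧ 0 < a * d - b ^ 2 ∧
    S = {z : ℂ | a * (z.re - c.re) ^ 2 + 2 * b * (z.re - c.re) * (z.im - c.im)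
      + d * (z.im - c.im) ^ 2 = 1}

def S_ELL : Prop := ∀ (x y x' y' : ℝ → ℝ) (L : ℝ) (A B C D E F : ℝ), Cv x y x' y' L →
  CF x y x' y' L → 0 < A → 0 < A * C - B ^ 2 →
  (∀ s, A * x s ^ 2 + 2 * B * x s * y s + C * y s ^ 2 + 2 * D * x s + 2 * E * y s + F = 0) →
  IsEllipse (range fun s : ℝ => (⟨x s, y s⟩ : ℂ))

/-! ## Caustics -/

/-- An invariant circle of the billiard map (in graph form). -/
structure Inv (x y x' y' : ℝ → ℝ) (L : ℝ) (f : ℝ → ℝ) : Prop where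
  cont : Continuous f
  mono : StrictMono f
  per : ∀ s, f (s + L) = f s + L
  lo : ∀ s, s < f s
  hi : ∀ s, f s < s + L
  law : ∀ s, h2 x y x' y' s (f s) + h1 x y x' y' (f s) (f (f s)) = 0

/-- the closed trajectories of an invariant circle have greatest perimeter -/
def S_CAL : Prop := ∀ (x y x' y' : ℝ → ℝ) (L : ℝ), Cv x y x' y' L → CF x y x' y' L →
  ∀ f : ℝ → ℝ, Inv x y x' y' L f → ∀ (n : ℕ) (s₀ : ℝ), 1 ≤ n → f^[n] s₀ = s₀ + L →
  ∀ c, Pol L n c → SS x y n c ≤ SS x y n (fun i => f^[i] s₀)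

open Pool.Agent.H719R3.BG

/-- the boundary point with parameter `s` -/
def pt (x y : ℝ → ℝ) (s : ℝ) : ℂ := ⟨x s, y s⟩

/-- step map of a convex set `K` inside the table: the oriented chord from `pt s` to `pt (f s)`
touches `K` and has `K` on its left -/
def Step (x y : ℝ → ℝ) (L : ℝ) (Ω K : Set ℂ) (f : ℝ → ℝ) : Prop :=
  ∀ s, s < f s ∧ f s < s + L ∧ RT Ω K (pt x y s) (pt x y (f s)) ∧
    ∀ s', s < s' → s' < s + L → RT Ω K (pt x y s) (pt x y s') → s' = f s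

/-- a table from its boundary curve -/
def S_TAB : Prop := ∀ (x y x' y' : ℝ → ℝ) (L : ℝ) (Ω : Set ℂ), Cv x y x' y' L →
  CF x y x' y' L → IsOpen Ω → Convex ℝ Ω → Bornology.IsBounded Ω → Ω.Nonempty →
  range (pt x y) = frontier Ω → Table Ω

/-- existence and properties of the step maps -/
def S_STP : Prop := ∀ (x y x' y' : ℝ → ℝ) (L : ℝ) (Ω K : Set ℂ), Cv x y x' y' L →
  CF x y x' y' L → Table Ω → range (pt x y) = frontier Ω →
  IsCompact K → Convex ℝ K → (interior K).Nonempty → K ⊆ Ω →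
  ∃ f, Step x y L Ω K f ∧ Continuous f ∧ StrictMono f ∧ (∀ s, f (s + L) = f s + L)

/-- monotonicity in the convex set -/
def S_SMO : Prop := ∀ (x y x' y' : ℝ → ℝ) (L : ℝ) (Ω K K' : Set ℂ) (f f' : ℝ → ℝ),
  Cv x y x' y' L → CF x y x' y' L → Table Ω → range (pt x y) = frontier Ω →
  K ⊆ interior K' → Step x y L Ω K f → Step x y L Ω K' f' → ∀ s, f' s < f s

/-- the reflection law -/
def S_RLW : Prop := ∀ (x y x' y' : ℝ → ℝ) (L : ℝ) (Ω K : Set ℂ) (f : ℝ → ℝ),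
  Cv x y x' y' L → CF x y x' y' L → Table Ω → range (pt x y) = frontier Ω →
  IsCaustic Ω K → Step x y L Ω K f →
  ∀ s, h2 x y x' y' s (f s) + h1 x y x' y' (f s) (f (f s)) = 0

/-- caustics near the boundary -/
def S_NEAR : Prop := ∀ (Ω : Set ℂ) (𝒦 : Set (Set ℂ)) (U : Set ℂ), Table Ω →
  CausticCollar Ω 𝒦 U → ∃ K₁ ∈ 𝒦, Ω \ K₁ ⊆ U ∧
    (∀ K ∈ 𝒦, ∀ K' ∈ 𝒦, K ⊆ K' → K ≠ K' → K ⊆ interior K')

/-- every short chord touches a caustic -/
def S_HIT : Prop := ∀ (x y x' y' : ℝ → ℝ) (L : ℝ) (Ω : Set ℂ) (𝒦 : Set (Set ℂ)) (U K₁ : Set ℂ)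
  (f : ℝ → ℝ), Cv x y x' y' L → CF x y x' y' L → Table Ω → range (pt x y) = frontier Ω →
  CausticCollar Ω 𝒦 U → K₁ ∈ 𝒦 → Ω \ K₁ ⊆ U → Step x y L Ω K₁ f →
  ∀ s s', s < s' → s' ≤ f s → ∃ K ∈ 𝒦, K₁ ⊆ K ∧ RT Ω K (pt x y s) (pt x y s')

/-- abstract form: a totally ordered family of circle maps whose graphs fill the region below the
graph of one of them contains maps with all small rotation numbers `1/n`, through every point -/
def S_ROT : Prop := ∀ (L : ℝ) (ι : Type) (F : ι → ℝ → ℝ) (k₁ : ι), 0 < L →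
  (∀ k, Continuous (F k) ∧ StrictMono (F k) ∧ (∀ s, F k (s + L) = F k s + L) ∧ ∀ s, s < F k s) →
  (∀ j k, (∀ s, F j s < F k s) ∨ (∀ s, F k s < F j s) ∨ j = k) →
  (∀ s s', s < s' → s' ≤ F k₁ s → ∃ k, F k s = s') →
  ∃ n₁ : ℕ, 2 ≤ n₁ ∧ ∀ n, n₁ ≤ n → ∀ s, ∃ k, (F k)^[n] s = s + L

/-- a collar of caustics gives constant greatest perimeters -/
def S_COL : Prop := ∀ (x y x' y' : ℝ → ℝ) (L : ℝ) (Ω : Set ℂ) (𝒦 : Set (Set ℂ)) (U : Set ℂ),
  Cv x y x' y' L → CF x y x' y' L → Table Ω → range (pt x y) = frontier Ω →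
  CausticCollar Ω 𝒦 U → ∃ n, 2 ≤ n ∧ ∃ m, Cst x y L n m

end Pool.Agent.W757.BL
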