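import Pool.Agent.W757.BL.Defs

/-!
# Assembly
-/

set_option autoImplicit false

namespace Pool.Agent.W757.BL

open Set Filter Topology
open scoped ContDiff
open Pool.Agent.H719R3.BG

theorem cv_stretch {x y x' y' : ℝ → ℝ} {L t : ℝ} (h : Cv x y x' y' L) (ht : 0 < t) :
    Cv (fun s => t * x s) y (fun s => t * x' s) y' L where
  L0 := h.L0
  dx s := (h.dx s).const_mul t
  dy := h.dy
  cx := continuous_const.mul h.cx
  cy := h.cy
  px s := by simp only [h.px]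
  py := h.py
  conv s r h1 h2 := by
    have := mul_pos ht (h.conv s r h1 h2)
    nlinarith

/-- no constant greatest perimeter for flat tables -/
theorem flat_aux (hCF : S_CF) (hFAM : S_FAM) (hGC : S_GC) (hEXT : S_EXT) (hDYN : S_DYN)
    (hCON : S_CON) (hELL : S_ELL)
    {x y x' y' : ℝ → ℝ} {L : ℝ} (h : Cv x y x' y' L) (hx : AnalyticOnNhd ℝ x univ)
    (hy : AnalyticOnNhd ℝ y univ) (hE : ¬ IsEllipse (range fun s : ℝ => (⟨x s, y s⟩ : ℂ)))
    (N : ℕ) (hN : 1 ≤ N) :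
    ∃ δ > 0, ∀ t, 0 < t → t < δ → t ∉ {s : ℝ | 0 < s ∧ ∀ a b, GG x y L N s a = GG x y L N s b} := by
  by_contra hcon
  push Not at hcon
  have h1 : ∀ k : ℕ, ∃ t, 0 < t ∧ t < 1 / ((k : ℝ) + 1) ∧
      t ∈ {s : ℝ | 0 < s ∧ ∀ a b, GG x y L N s a = GG x y L N s b} := fun k =>
    hcon (1 / ((k : ℝ) + 1)) (by positivity)
  choose t ht0 ht1 htE using h1
  have hcf := hCF x y x' y' L h
  obtain ⟨b, e, hbe⟩ := hEXT x y x' y' L h hcf
  have h2 : ∀ k, ∃ m, ∃ f, Fam (fun s => t k * x s) y (fun s => t k * x' s) y' L (N + 1) m f := by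
    intro k
    obtain ⟨m, hm⟩ := (hGC x y x' y' L N (t k) h (ht0 k) hN).2 (htE k).2
    obtain ⟨f, hf⟩ := hFAM _ _ _ _ L (N + 1) m (cv_stretch h (ht0 k))
      (hCF _ _ _ _ L (cv_stretch h (ht0 k))) (by omega) hm
    exact ⟨m, f, hf⟩
  choose m f hf using h2
  have htl : Tendsto t atTop (𝓝 0) := by
    refine squeeze_zero (fun k => (ht0 k).le) (fun k => (ht1 k).le) ?_
    exact tendsto_one_div_add_atTop_nhds_zero_nat
  have h3 := hDYN x y x' y' L b e (N + 1) h hcf hx hy hbe (by omega) t m f ht0 htl hf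
  obtain ⟨A, B, C, D, E, F, hA, hAC, hq⟩ := hCON x y x' y' L b e h hcf hx hy hbe h3
  exact hE (hELL x y x' y' L A B C D E F h hcf hA hAC hq)

theorem countable_aux (hCF : S_CF) (hFAM : S_FAM) (hGC : S_GC) (hACC : S_ACC) (hTOP : S_TOP)
    (hEXT : S_EXT) (hDYN : S_DYN) (hCON : S_CON) (hELL : S_ELL)
    {x y x' y' : ℝ → ℝ} {L : ℝ} (h : Cv x y x' y' L) (hx : AnalyticOnNhd ℝ x univ)
    (hy : AnalyticOnNhd ℝ y univ) (hE : ¬ IsEllipse (range fun s : ℝ => (⟨x s, y s⟩ : ℂ)))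
    (N : ℕ) (hN : 1 ≤ N) :
    {s : ℝ | 0 < s ∧ ∀ a b, GG x y L N s a = GG x y L N s b}.Countable := by
  refine hTOP _ (fun s hs => hs.1) (fun t ht hacc => ?_)
    (flat_aux hCF hFAM hGC hEXT hDYN hCON hELL h hx hy hE N hN)
  exact hACC x y x' y' L N t h hx hy hN ht hacc

/-- the stretching `(x, y) ↦ (t x, y)` -/
noncomputable def stretch (t : ℝ) (z : ℂ) : ℂ := ⟨t * z.re, z.im⟩

/-- the stretching as a linear equivalence -/
noncomputable def stretchL {t : ℝ} (ht : t ≠ 0) : ℂ ≃L[ℝ] ℂ :=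
  LinearEquiv.toContinuousLinearEquiv
    { toFun := stretch t
      invFun := stretch t⁻¹
      map_add' := fun z w => by
        apply Complex.ext <;> simp [stretch] <;> ring
      map_smul' := fun c z => by
        apply Complex.ext <;> simp [stretch] <;> ring
      left_inv := fun z => by
        apply Complex.ext <;> simp [stretch, ht]
      right_inv := fun z => by
        apply Complex.ext <;> simp [stretch, ht] }

theorem stretchL_apply {t : ℝ} (ht : t ≠ 0) (z : ℂ) : stretchL ht z = stretch t z := rfl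

theorem main (hCF : S_CF) (hFAM : S_FAM) (hGC : S_GC) (hACC : S_ACC) (hTOP : S_TOP)
    (hEXT : S_EXT) (hDYN : S_DYN) (hCON : S_CON) (hELL : S_ELL) (hTAB : S_TAB) (hCOL : S_COL)
    {x y x' y' : ℝ → ℝ} {L : ℝ} {Ω : Set ℂ} (h : Cv x y x' y' L) (hx : AnalyticOnNhd ℝ x univ)
    (hy : AnalyticOnNhd ℝ y univ) (hΩ : IsOpen Ω) (hc : Convex ℝ Ω)
    (hb : Bornology.IsBounded Ω) (hne : Ω.Nonempty) (hfr : range (pt x y) = frontier Ω)
    (hE : ¬ IsEllipse (frontier Ω)) :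
    {t : ℝ | 0 < t ∧ ∃ (𝒦 : Set (Set ℂ)) (U : Set ℂ), CausticCollar (stretch t '' Ω) 𝒦 U}.Countable := by
  have hE' : ¬ IsEllipse (range fun s : ℝ => (⟨x s, y s⟩ : ℂ)) := by
    have : (range fun s : ℝ => (⟨x s, y s⟩ : ℂ)) = frontier Ω := hfr
    rwa [this]
  refine (countable_iUnion (ι := ℕ) (t := fun N =>
    {s : ℝ | 0 < s ∧ ∀ a b, GG x y L (N + 1) s a = GG x y L (N + 1) s b}) fun N =>
      countable_aux hCF hFAM hGC hACC hTOP hEXT hDYN hCON hELL h hx hy hE' (N + 1) (by omega)).mono ?_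
  rintro t ⟨ht, 𝒦, U, hC⟩
  have hcv := cv_stretch h ht
  have hcf := hCF _ _ _ _ L hcv
  have himg : stretch t '' Ω = stretchL ht.ne' '' Ω := rfl
  have hfr' : range (pt (fun s => t * x s) y) = frontier (stretch t '' Ω) := by
    have e1 : stretchL ht.ne' '' frontier Ω = frontier (stretchL ht.ne' '' Ω) :=
      (stretchL ht.ne').toHomeomorph.image_frontier Ω
    rw [himg, ← e1, ← hfr, ← range_comp]
    rfl
  have hT : Table (stretch t '' Ω) := by
    refine hTAB _ _ _ _ L _ hcv hcf ?_ ?_ ?_ (hne.image _) hfr'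
    · rw [himg]; exact (stretchL ht.ne').toHomeomorph.isOpenMap _ hΩ
    · rw [himg]; exact hc.linear_image ((stretchL ht.ne').toLinearEquiv : ℂ →ₗ[ℝ] ℂ)
    · rw [himg]; exact (stretchL ht.ne').lipschitz.isBounded_image hb
  obtain ⟨n, hn, m, hm⟩ := hCOL _ _ _ _ L _ 𝒦 U hcv hcf hT hfr' hC
  obtain ⟨N, rfl⟩ : ∃ N, n = N + 1 + 1 := ⟨n - 2, by omega⟩
  rw [mem_iUnion]
  exact ⟨N, ht, (hGC x y x' y' L (N + 1) t h ht (by omega)).1 ⟨m, hm⟩⟩

end Pool.Agent.W757.BL
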