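import Pool.Agent.W757.BL.Defs

/-!
# The limit of the invariant circles in flat tables
-/

set_option autoImplicit false

namespace Pool.Agent.W757.BL

open Set Filter Topology
open scoped ContDiff

/-- limits along an ultrafilter of bounded sequences -/
theorem exists_ulim (l : Ultrafilter ℕ) {a b : ℝ} {f : ℕ → ℝ} (h : ∀ k, f k ∈ Icc a b) :
    ∃ z ∈ Icc a b, Tendsto f l (𝓝 z) := by
  have h1 : ((l.map f : Ultrafilter ℝ) : Filter ℝ) ≤ 𝓟 (Icc a b) := by
    rw [le_principal_iff]
    exact Filter.mem_map.2 (Filter.univ_mem' h)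
  obtain ⟨z, hz, hz'⟩ := isCompact_Icc.ultrafilter_le_nhds _ h1
  exact ⟨z, hz, hz'⟩

theorem y_mono {x y x' y' : ℝ → ℝ} {L b e : ℝ} (h : Cv x y x' y' L) (hE : Ext x y x' y' L b e)
    {s r : ℝ} (h1 : b ≤ s) (h2 : s < r) (h3 : r ≤ e) : y s < y r := by
  have hm : StrictMonoOn y (Icc b e) := by
    refine strictMonoOn_of_deriv_pos (convex_Icc b e) ?_ ?_
    · exact (continuous_iff_continuousAt.2 fun s => (h.dy s).continuousAt).continuousOn
    · intro z hz
      rw [interior_Icc] at hz
      rw [(h.dy z).deriv]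
      exact hE.up z hz.1 hz.2
  exact hm ⟨h1, by linarith⟩ ⟨by linarith, h3⟩ h2

theorem y_anti {x y x' y' : ℝ → ℝ} {L b e : ℝ} (h : Cv x y x' y' L) (hE : Ext x y x' y' L b e)
    {s r : ℝ} (h1 : e ≤ s) (h2 : s < r) (h3 : r ≤ b + L) : y r < y s := by
  have hm : StrictAntiOn y (Icc e (b + L)) := by
    refine strictAntiOn_of_deriv_neg (convex_Icc e (b + L)) ?_ ?_
    · exact (continuous_iff_continuousAt.2 fun s => (h.dy s).continuousAt).continuousOn
    · intro z hz
      rw [interior_Icc] at hz
      rw [(h.dy z).deriv]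
      exact hE.dn z hz.1 hz.2
  exact hm ⟨h1, by linarith⟩ ⟨by linarith, h3⟩ h2

theorem y_anti' {x y x' y' : ℝ → ℝ} {L b e : ℝ} (h : Cv x y x' y' L) (hE : Ext x y x' y' L b e)
    {s r : ℝ} (h1 : e - L ≤ s) (h2 : s < r) (h3 : r ≤ b) : y r < y s := by
  have := y_anti h hE (s := s + L) (r := r + L) (by linarith) (by linarith) (by linarith)
  rwa [h.py, h.py] at this

theorem t_DYN (hJMP : S_JMP) (hLAW : S_LAW) (hMER : S_MER) : S_DYN := by
  intro x y x' y' L b e n h hcf hx hy hE hn t m f ht0 ht hf
  have hL := h.L0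
  have hbe := hE.be
  have heb := hE.eb
  -- inverse maps
  have hg : ∀ k s, ∃ r, f k r = s := fun k s => (hf k).surj s
  choose g hg using hg
  have hglo : ∀ k s, g k s < s := fun k s => by
    have := (hf k).lo (g k s); rw [hg] at this; exact this
  have hghi : ∀ k s, s < g k s + L := fun k s => by
    have := (hf k).hi (g k s); rw [hg] at this; exact this
  have hiff : ∀ k s r, s < g k r ↔ f k s < r := fun k s r => by
    constructor
    · intro h1
      have := (hf k).mono h1
      rwa [hg] at this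
    · intro h1
      rw [← hg k r] at h1
      exact (hf k).mono.lt_iff_lt.1 h1
  have hiff' : ∀ k s r, g k r < s ↔ r < f k s := fun k s r => by
    constructor
    · intro h1
      have := (hf k).mono h1
      rwa [hg] at this
    · intro h1
      rw [← hg k r] at h1
      exact (hf k).mono.lt_iff_lt.1 h1
  set l : Ultrafilter ℕ := Filter.hyperfilter ℕ with hl
  have hlt : (l : Filter ℕ) ≤ atTop := by
    rw [← Nat.cofinite_eq_atTop]; exact Filter.hyperfilter_le_cofinite
  have hlim : ∀ s, ∃ z ∈ Icc s (s + L), Tendsto (fun k => f k s) l (𝓝 z) := fun s =>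
    exists_ulim l fun k => ⟨((hf k).lo s).le, ((hf k).hi s).le⟩
  choose φ hφ hφt using hlim
  have hlim' : ∀ s, ∃ z ∈ Icc (s - L) s, Tendsto (fun k => g k s) l (𝓝 z) := fun s =>
    exists_ulim l fun k => ⟨by linarith [hghi k s], (hglo k s).le⟩
  choose ψ hψ hψt using hlim'
  -- comparison principles
  have φ_le : ∀ s c, (∀ᶠ k in (l : Filter ℕ), f k s ≤ c) → φ s ≤ c := fun s c h1 =>
    le_of_tendsto (hφt s) h1
  have le_φ : ∀ s c, (∀ᶠ k in (l : Filter ℕ), c ≤ f k s) → c ≤ φ s := fun s c h1 =>
    ge_of_tendsto (hφt s) h1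
  have ψ_le : ∀ s c, (∀ᶠ k in (l : Filter ℕ), g k s ≤ c) → ψ s ≤ c := fun s c h1 =>
    le_of_tendsto (hψt s) h1
  have le_ψ : ∀ s c, (∀ᶠ k in (l : Filter ℕ), c ≤ g k s) → c ≤ ψ s := fun s c h1 =>
    ge_of_tendsto (hψt s) h1
  have ev_lt : ∀ s c, φ s < c → ∀ᶠ k in (l : Filter ℕ), f k s < c := fun s c h1 =>
    (hφt s).eventually_lt_const h1
  have ev_gt : ∀ s c, c < φ s → ∀ᶠ k in (l : Filter ℕ), c < f k s := fun s c h1 =>
    (hφt s).eventually_const_lt h1
  have ev_lt' : ∀ s c, ψ s < c → ∀ᶠ k in (l : Filter ℕ), g k s < c := fun s c h1 =>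
    (hψt s).eventually_lt_const h1
  have ev_gt' : ∀ s c, c < ψ s → ∀ᶠ k in (l : Filter ℕ), c < g k s := fun s c h1 =>
    (hψt s).eventually_const_lt h1
  have φmono : ∀ s r, s ≤ r → φ s ≤ φ r := fun s r hsr =>
    le_of_tendsto_of_tendsto (hφt s) (hφt r) (Eventually.of_forall fun k => (hf k).mono.monotone hsr)
  have gmono : ∀ k s r, s ≤ r → g k s ≤ g k r := by
    intro k s r hsr
    by_contra hcon
    push Not at hcon
    have := (hiff k (g k r) s).1 hcon
    rw [hg] at this
    linarith
  have ψmono : ∀ s r, s ≤ r → ψ s ≤ ψ r := fun s r hsr =>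
    le_of_tendsto_of_tendsto (hψt s) (hψt r) (Eventually.of_forall fun k => gmono k s r hsr)
  -- no jumps over `b` and `e`
  have hjmp : ∀ ε > 0, ∀ᶠ k in (l : Filter ℕ), (∀ s, s ≤ b - ε → f k s < b + ε) ∧
      (∀ s, s ≤ e - ε → f k s < e + ε) := by
    intro ε hε
    obtain ⟨δ, hδ, h1⟩ := hJMP x y x' y' L n b e h hE hn ε hε
    have h2 : ∀ᶠ k in (l : Filter ℕ), t k < δ := (ht.mono_left hlt).eventually_lt_const hδ
    filter_upwards [h2] with k hk
    exact h1 (t k) (ht0 k) hk (m k) (f k) (hf k)
  have φb : ∀ s, s < b → φ s ≤ b := by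
    intro s hs
    refine le_of_forall_pos_le_add fun ε hε => ?_
    refine (φmono s _ ?_).trans (φ_le (b - min ε (b - s)) (b + ε) ?_)
    · linarith [min_le_right ε (b - s)]
    · filter_upwards [hjmp (min ε (b - s)) (lt_min hε (by linarith))] with k hk
      have := hk.1 _ le_rfl
      linarith [min_le_left ε (b - s)]
  have φe : ∀ s, s < e → φ s ≤ e := by
    intro s hs
    refine le_of_forall_pos_le_add fun ε hε => ?_
    refine (φmono s _ ?_).trans (φ_le (e - min ε (e - s)) (e + ε) ?_)
    · linarith [min_le_right ε (e - s)]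
    · filter_upwards [hjmp (min ε (e - s)) (lt_min hε (by linarith))] with k hk
      have := hk.2 _ le_rfl
      linarith [min_le_left ε (e - s)]
  have ψb : ∀ q, b < q → b ≤ ψ q := by
    intro q hq
    by_contra hcon
    push Not at hcon
    obtain ⟨a, ha1, ha2⟩ := exists_between hcon
    have h1 := ev_lt' q a ha1
    have h2 : q ≤ φ a := le_φ a q (h1.mono fun k hk => ((hiff' k a q).1 hk).le)
    linarith [φb a ha2]
  -- shifts by the period
  have gper : ∀ k s, g k (s - L) = g k s - L := by
    intro k s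
    apply (hf k).mono.injective
    have h1 := (hf k).per (g k s - L)
    rw [sub_add_cancel, hg] at h1
    rw [hg]
    linarith
  have ψper : ∀ s, ψ (s - L) = ψ s - L := by
    intro s
    refine tendsto_nhds_unique (hψt (s - L)) ?_
    have : (fun k => g k (s - L)) = fun k => g k s - L := by
      funext k; exact gper k s
    rw [this]
    exact (hψt s).sub_const L
  have ψe : ∀ q, e - L < q → e - L ≤ ψ q := by
    intro q hq
    have h0 : ∀ q, e < q → e ≤ ψ q := by
      intro q hq
      by_contra hcon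
      push Not at hcon
      obtain ⟨a, ha1, ha2⟩ := exists_between hcon
      have h1 := ev_lt' q a ha1
      have h2 : q ≤ φ a := le_φ a q (h1.mono fun k hk => ((hiff' k a q).1 hk).le)
      linarith [φe a ha2]
    have h1 := h0 (q + L) (by linarith)
    have h2 := ψper (q + L)
    rw [add_sub_cancel_right] at h2
    linarith
  -- the right limit of `φ` at `b`
  set w : ℝ := sInf (φ '' Ioi b) with hw
  have hwbd : BddBelow (φ '' Ioi b) := ⟨b, by
    rintro _ ⟨s, hs, rfl⟩
    exact le_trans (le_of_lt hs) (hφ s).1⟩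
  have hwne : (φ '' Ioi b).Nonempty := ⟨_, b + 1, by simp, rfl⟩
  have hwle : ∀ q, b < q → w ≤ φ q := fun q hq => csInf_le hwbd ⟨q, hq, rfl⟩
  have hwlt : ∀ c, w < c → ∃ q, b < q ∧ φ q < c := by
    intro c hc
    obtain ⟨_, ⟨q, hq, rfl⟩, hqc⟩ := exists_lt_of_csInf_lt hwne hc
    exact ⟨q, hq, hqc⟩
  have hwb : b < w := by
    by_contra hcon
    push Not at hcon
    have key : ∀ j : ℕ, ∃ a, b < a ∧ ∀ᶠ k in (l : Filter ℕ), (f k)^[j] a < b + L := by
      intro j
      induction j with
      | zero => exact ⟨b + L / 2, by linarith, Eventually.of_forall fun k => by simp; linarith⟩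
      | succ j ih =>
        obtain ⟨a, ha, hak⟩ := ih
        obtain ⟨q, hq, hqa⟩ := hwlt a (by linarith)
        refine ⟨q, hq, ?_⟩
        filter_upwards [hak, ev_lt q a hqa] with k h1 h2
        rw [Function.iterate_succ_apply]
        exact lt_trans ((hf k).mono.iterate j h2) h1
    obtain ⟨a, ha, hak⟩ := key n
    obtain ⟨k, hk⟩ := hak.exists
    rw [(hf k).cyc] at hk
    linarith
  -- the left limit of `ψ` at `b`
  set v : ℝ := sSup (ψ '' Iio b) with hv
  have hvbd : BddAbove (ψ '' Iio b) := ⟨b, by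
    rintro _ ⟨s, hs, rfl⟩
    exact le_trans (hψ s).2 (le_of_lt hs)⟩
  have hvne : (ψ '' Iio b).Nonempty := ⟨_, b - 1, by simp, rfl⟩
  have hlev : ∀ q, q < b → ψ q ≤ v := fun q hq => le_csSup hvbd ⟨q, hq, rfl⟩
  have hltv : ∀ c, c < v → ∃ q, q < b ∧ c < ψ q := by
    intro c hc
    obtain ⟨_, ⟨q, hq, rfl⟩, hqc⟩ := exists_lt_of_lt_csSup hvne hc
    exact ⟨q, hq, hqc⟩
  have gmono' : ∀ k, StrictMono (g k) := by
    intro k s r hsr
    rw [hiff, hg]
    exact hsr
  have gcyc : ∀ k (j : ℕ) s, (f k)^[j] ((g k)^[j] s) = s := by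
    intro k j
    induction j with
    | zero => intro s; rfl
    | succ j ih =>
      intro s
      rw [Function.iterate_succ_apply' (g k), Function.iterate_succ_apply (f k), hg, ih]
  have gcyc' : ∀ k s, (g k)^[n] s = s - L := by
    intro k s
    apply ((hf k).mono.iterate n).injective
    rw [gcyc, (hf k).cyc]
    ring
  have hvb : v < b := by
    by_contra hcon
    push Not at hcon
    have key : ∀ j : ℕ, ∃ a, a < b ∧ ∀ᶠ k in (l : Filter ℕ), b - L < (g k)^[j] a := by
      intro j
      induction j with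
      | zero => exact ⟨b - L / 2, by linarith, Eventually.of_forall fun k => by simp; linarith⟩
      | succ j ih =>
        obtain ⟨a, ha, hak⟩ := ih
        obtain ⟨q, hq, hqa⟩ := hltv a (by linarith)
        refine ⟨q, hq, ?_⟩
        filter_upwards [hak, ev_gt' q a hqa] with k h1 h2
        rw [Function.iterate_succ_apply]
        exact lt_trans h1 ((gmono' k).iterate j h2)
    obtain ⟨a, ha, hak⟩ := key n
    obtain ⟨k, hk⟩ := hak.exists
    rw [gcyc'] at hk
    linarith
  have hwe : w ≤ e := by
    obtain ⟨q, hq1, hq2⟩ := exists_between hbe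
    exact (hwle q hq1).trans (φe q hq2)
  have hve : e - L ≤ v := by
    obtain ⟨q, hq1, hq2⟩ := exists_between (show e - L < b by linarith)
    exact (ψe q hq1).trans (hlev q hq2)
  -- values near `b`
  have hψq : ∀ q, b < q → q < w → ψ q = b := by
    intro q hq hqw
    refine le_antisymm ?_ (ψb q hq)
    refine le_of_forall_gt_imp_ge_of_dense fun a ha => ?_
    rcases lt_or_ge a q with haq | haq
    · refine ψ_le q a ?_
      filter_upwards [ev_gt a q (lt_of_lt_of_le hqw (hwle a ha))] with k hk
      exact ((hiff' k a q).2 hk).le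
    · exact (hψ q).2.trans haq
  have hφq : ∀ q, v < q → q < b → φ q = b := by
    intro q hq hqb
    refine le_antisymm (φb q hqb) ?_
    refine le_of_forall_lt_imp_le_of_dense fun a ha => ?_
    rcases lt_or_ge q a with haq | haq
    · refine le_φ q a ?_
      filter_upwards [ev_lt' a q (lt_of_le_of_lt (hlev a ha) hq)] with k hk
      exact ((hiff' k q a).1 hk).le
    · exact haq.trans (hφ q).1
  -- the reflection law on the right of `b`
  have hlawR : ∀ q, b < q → q < w →
      2 * x' q / y' q = (x q - x b) / (y q - y b) + (x (φ q) - x q) / (y (φ q) - y q) := by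
    intro q hq hqw
    have hqφ : w ≤ φ q := hwle q hq
    have hφe : φ q ≤ e := φe q (by linarith)
    refine hLAW x y x' y' L h hcf l t (fun k => g k q) (fun k => f k q) q b (φ q) 1 inferInstance
      (ht.mono_left hlt) ht0 ?_ (hφt q) (Or.inl rfl) (fun k => hglo k q) (fun k => hghi k q)
      (fun k => (hf k).lo q) (fun k => (hf k).hi q) hq (by linarith) (by linarith) ?_ ?_
      (hE.up q hq (by linarith)).ne' ?_
    · have := hψt q
      rwa [hψq q hq hqw] at this
    · have := y_mono h hE le_rfl hq (by linarith)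
      linarith
    · have := y_mono h hE hq.le (show q < φ q by linarith) hφe
      linarith
    · intro k
      have := (hf k).law (g k q)
      rwa [hg] at this
  -- the reflection law on the left of `b`
  have hlawL : ∀ q, v < q → q < b →
      2 * x' q / y' q = (x q - x (ψ q)) / (y q - y (ψ q)) + (x b - x q) / (y b - y q) := by
    intro q hq hqb
    have hψv : ψ q ≤ v := hlev q hqb
    have hψe : e - L ≤ ψ q := ψe q (by linarith)
    refine hLAW x y x' y' L h hcf l t (fun k => g k q) (fun k => f k q) q (ψ q) b (-1)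
      inferInstance (ht.mono_left hlt) ht0 (hψt q) ?_ (Or.inr rfl) (fun k => hglo k q)
      (fun k => hghi k q) (fun k => (hf k).lo q) (fun k => (hf k).hi q) (by linarith) hqb
      (by linarith) ?_ ?_ ?_ ?_
    · have := hφt q
      rwa [hφq q hq hqb] at this
    · have := y_anti' h hE hψe (show ψ q < q by linarith) hqb.le
      linarith
    · have := y_anti' h hE (show e - L ≤ q by linarith) hqb le_rfl
      linarith
    · have h1 := hE.dn (q + L) (by linarith) (by linarith)
      rw [(hcf.dper q).2] at h1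
      exact h1.ne
    · intro k
      have := (hf k).law (g k q)
      rwa [hg] at this
  have hxc : Continuous x := continuous_iff_continuousAt.2 fun s => (h.dx s).continuousAt
  have hyc : Continuous y := continuous_iff_continuousAt.2 fun s => (h.dy s).continuousAt
  -- one-sided limits
  have hφw : Tendsto φ (𝓝[>] b) (𝓝 w) := by
    rw [tendsto_order]
    constructor
    · intro c hc
      filter_upwards [self_mem_nhdsWithin] with q hq
      exact lt_of_lt_of_le hc (hwle q hq)
    · intro c hc
      obtain ⟨q, hq, hqc⟩ := hwlt c hc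
      filter_upwards [Ioo_mem_nhdsGT hq] with r hr
      exact lt_of_le_of_lt (φmono r q hr.2.le) hqc
  have hψv : Tendsto ψ (𝓝[<] b) (𝓝 v) := by
    rw [tendsto_order]
    constructor
    · intro c hc
      obtain ⟨q, hq, hqc⟩ := hltv c hc
      filter_upwards [Ioo_mem_nhdsLT hq] with r hr
      exact lt_of_lt_of_le hqc (ψmono q r hr.1.le)
    · intro c hc
      filter_upwards [self_mem_nhdsWithin] with q hq
      exact lt_of_le_of_lt (hlev q hq) hc
  have hywb : y w - y b ≠ 0 := by
    have := y_mono h hE le_rfl hwb hwe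
    linarith
  have hyvb : y b - y v ≠ 0 := by
    have := y_anti' h hE hve hvb le_rfl
    linarith
  have hR : Tendsto (fun q => 2 * x' q / y' q - (x q - x b) / (y q - y b)) (𝓝[>] b)
      (𝓝 ((x w - x b) / (y w - y b))) := by
    have h1 : Tendsto (fun q => (x (φ q) - x q) / (y (φ q) - y q)) (𝓝[>] b)
        (𝓝 ((x w - x b) / (y w - y b))) := by
      have hid : Tendsto (fun q : ℝ => q) (𝓝[>] b) (𝓝 b) := nhdsWithin_le_nhds
      exact (((hxc.tendsto w).comp hφw).sub ((hxc.tendsto b).comp hid)).div
        (((hyc.tendsto w).comp hφw).sub ((hyc.tendsto b).comp hid)) hywb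
    refine h1.congr' ?_
    filter_upwards [Ioo_mem_nhdsGT hwb] with q hq
    rw [hlawR q hq.1 hq.2]
    ring
  have hLl : Tendsto (fun q => 2 * x' q / y' q - (x q - x b) / (y q - y b)) (𝓝[<] b)
      (𝓝 ((x b - x v) / (y b - y v))) := by
    have h1 : Tendsto (fun q => (x q - x (ψ q)) / (y q - y (ψ q))) (𝓝[<] b)
        (𝓝 ((x b - x v) / (y b - y v))) := by
      have hid : Tendsto (fun q : ℝ => q) (𝓝[<] b) (𝓝 b) := nhdsWithin_le_nhds
      exact (((hxc.tendsto b).comp hid).sub ((hxc.tendsto v).comp hψv)).div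
        (((hyc.tendsto b).comp hid).sub ((hyc.tendsto v).comp hψv)) hyvb
    refine h1.congr' ?_
    filter_upwards [Ioo_mem_nhdsLT hvb] with q hq
    rw [hlawL q hq.1 hq.2]
    have h2 : (x b - x q) / (y b - y q) = (x q - x b) / (y q - y b) := by
      rw [← neg_sub (x q), ← neg_sub (y q), neg_div_neg_eq]
    rw [h2]
    ring
  have heq := hMER x y x' y' L b e h hx hy hE _ _ hR hLl
  -- the two slopes are equal, so `w = e`
  have hwE : w = e := by
    by_contra hne
    have hwlt' : w < e := lt_of_le_of_ne hwe hne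
    have h1 := hcf.orient b w (v + L) hwb (by linarith) (by linarith)
    rw [h.px, h.py] at h1
    have h2 : (x b - x v) * (y w - y b) = (x w - x b) * (y b - y v) := by
      rw [div_eq_div_iff hyvb hywb] at heq
      exact heq
    nlinarith
  intro q hq hqe
  have h1 := hlawR q hq (by rw [hwE]; exact hqe)
  have h2 : φ q = e := le_antisymm (φe q hqe) (by rw [← hwE]; exact hwle q hq)
  rw [h2] at h1
  exact h1

end Pool.Agent.W757.BL
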