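import Pool.Agent.W757.BL.Defs

/-!
# Existence of polygons of greatest perimeter
-/

set_option autoImplicit false

namespace Pool.Agent.W757.BL

open Set Filter Topology
open scoped ContDiff

theorem cs_cont (L : ℝ) (N i : ℕ) : Continuous (fun u : Fin N → ℝ => cs L u i) := by
  cases i with
  | zero => exact continuous_const
  | succ i =>
    simp only [cs]
    split_ifs with h
    · exact continuous_apply _
    · exact continuous_const

theorem cs_end (L : ℝ) {N : ℕ} (u : Fin N → ℝ) : cs L u (N + 1) = L := by
  simp [cs]

theorem cs_mono {L : ℝ} {N : ℕ} {u : Fin N → ℝ} (hu : u ∈ KK L N) {i j : ℕ} (hij : i ≤ j)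
    (hj : j ≤ N + 1) : cs L u i ≤ cs L u j := by
  induction j, hij using Nat.le_induction with
  | base => exact le_rfl
  | succ j hij ih => exact (ih (by omega)).trans (hu j (by omega))

theorem KK_compact {L : ℝ} (hL : 0 < L) (N : ℕ) : IsCompact (KK L N) := by
  have hcl : IsClosed (KK L N) := by
    have : KK L N = ⋂ i ∈ {i : ℕ | i ≤ N}, {u : Fin N → ℝ | cs L u i ≤ cs L u (i + 1)} := by
      ext u
      simp [KK]
    rw [this]
    exact isClosed_biInter fun i _ => isClosed_le (cs_cont L N i) (cs_cont L N (i + 1))
  refine IsCompact.of_isClosed_subset (isCompact_univ_pi fun _ : Fin N => isCompact_Icc (a := 0) (b := L)) hcl ?_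
  intro u hu k _
  have h0 := cs_mono hu (i := 0) (j := k + 1) (by omega) (by omega)
  have h1 := cs_mono hu (i := k + 1) (j := N + 1) (by omega) le_rfl
  rw [cs_end] at h1
  simp only [cs, k.2, dite_true] at h0 h1
  exact ⟨h0, h1⟩

theorem KK_nonempty {L : ℝ} (hL : 0 < L) (N : ℕ) : (KK L N).Nonempty := by
  refine ⟨fun _ => L, fun i hi => ?_⟩
  cases i with
  | zero => simp only [cs]; split_ifs <;> exact hL.le
  | succ i => simp only [cs]; split_ifs <;> exact le_rfl

theorem cs_update_ne (L : ℝ) {N : ℕ} (u : Fin N → ℝ) {k : ℕ} (hk : k < N) (r : ℝ) {i : ℕ}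
    (hi : i ≠ k + 1) : cs L (Function.update u ⟨k, hk⟩ r) i = cs L u i := by
  cases i with
  | zero => rfl
  | succ i =>
    simp only [cs]
    split_ifs with h
    · rw [Function.update_of_ne]
      intro h2
      exact hi (by rw [Fin.mk.injEq] at h2; omega)
    · rfl

theorem cs_update_eq (L : ℝ) {N : ℕ} (u : Fin N → ℝ) {k : ℕ} (hk : k < N) (r : ℝ) :
    cs L (Function.update u ⟨k, hk⟩ r) (k + 1) = r := by
  simp [cs, hk]

theorem t_EXM : S_EXM := by
  intro x y x' y' L N h hcf hN a
  have hL := h.L0
  have hPc : Continuous (fun u : Fin N → ℝ => PP x y L a u) := by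
    unfold PP
    refine continuous_finsetSum _ fun i _ => ?_
    exact hcf.cont.comp ((continuous_const.add (cs_cont L N i)).prodMk
      (continuous_const.add (cs_cont L N (i + 1))))
  refine ⟨?_, ?_⟩
  · obtain ⟨u, hu, hm⟩ := (KK_compact hL N).exists_isMaxOn (KK_nonempty hL N) hPc.continuousOn
    exact ⟨u, hu, fun v hv => hm hv⟩
  · intro u hu hmax i hi
    by_contra hcon
    have hcon : cs L u i = cs L u (i + 1) := le_antisymm (hu i hi) (not_lt.1 hcon)
    -- the key improvement
    have key : ∀ k, k < N → cs L u k < cs L u (k + 2) →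
        (cs L u k = cs L u (k + 1) ∨ cs L u (k + 1) = cs L u (k + 2)) → False := by
      intro k hk hlt hor
      set r := (cs L u k + cs L u (k + 2)) / 2 with hr
      set v := Function.update u ⟨k, hk⟩ r with hv
      have hvk : cs L v (k + 1) = r := cs_update_eq L u hk r
      have hvn : ∀ i, i ≠ k + 1 → cs L v i = cs L u i := fun i hi => cs_update_ne L u hk r hi
      have hvK : v ∈ KK L N := by
        intro j hj
        rcases eq_or_ne j (k + 1) with h1 | h1
        · rw [h1, hvk, hvn _ (by omega)]
          show r ≤ cs L u (k + 2)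
          rw [hr]; linarith
        · rcases eq_or_ne j k with h2 | h2
          · rw [h2, hvk, hvn _ (by omega), hr]; linarith
          · rw [hvn j h1, hvn (j + 1) (by omega)]
            exact hu j hj
      have h1 := hmax v hvK
      unfold PP at h1
      have hmem1 : k ∈ Finset.range (N + 1) := Finset.mem_range.2 (by omega)
      have hmem2 : k + 1 ∈ (Finset.range (N + 1)).erase k :=
        Finset.mem_erase.2 ⟨by omega, Finset.mem_range.2 (by omega)⟩
      rw [← Finset.add_sum_erase _ _ hmem1, ← Finset.add_sum_erase _ _ hmem2,
        ← Finset.add_sum_erase (Finset.range (N + 1)) (fun i => hh x y (a + cs L u i) (a + cs L u (i + 1))) hmem1,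
        ← Finset.add_sum_erase ((Finset.range (N + 1)).erase k) (fun i => hh x y (a + cs L u i) (a + cs L u (i + 1))) hmem2] at h1
      have h2 : ∑ i ∈ ((Finset.range (N + 1)).erase k).erase (k + 1),
          hh x y (a + cs L v i) (a + cs L v (i + 1)) =
          ∑ i ∈ ((Finset.range (N + 1)).erase k).erase (k + 1),
          hh x y (a + cs L u i) (a + cs L u (i + 1)) := by
        refine Finset.sum_congr rfl fun i hi => ?_
        rw [Finset.mem_erase, Finset.mem_erase] at hi
        rw [hvn i hi.1, hvn (i + 1) (by omega)]
      rw [h2, hvk, hvn k (by omega), show cs L v (k + 1 + 1) = cs L u (k + 2) from hvn _ (by omega)] at h1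
      have hup : cs L u (k + 2) ≤ cs L u k + L := by
        have e1 : cs L u (k + 2) ≤ L := by
          have := cs_mono hu (i := k + 2) (j := N + 1) (by omega) le_rfl
          rwa [cs_end] at this
        have e2 : 0 ≤ cs L u k := cs_mono hu (i := 0) (j := k) (by omega) (by omega)
        linarith
      have h3 := hcf.tri (a + cs L u k) (a + r) (a + cs L u (k + 2)) (by rw [hr]; linarith)
        (by rw [hr]; linarith) (by linarith)
      have hz : ∀ c, hh x y c c = 0 := fun c => by simp [hh]
      rcases hor with h4 | h4
      · rw [← h4, hz] at h1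
        have h5 : cs L u (k + 1 + 1) = cs L u (k + 2) := rfl
        rw [h5] at h1
        linarith
      · have h5 : cs L u (k + 1 + 1) = cs L u (k + 2) := rfl
        rw [h5, h4, hz] at h1
        linarith
    -- some adjacent pair
    by_cases hall : ∀ j, i ≤ j → j ≤ N → cs L u j = cs L u (j + 1)
    · -- all edges after `i` are degenerate
      have hall2 : ∀ j, j ≤ i → cs L u (i - j) = cs L u (i - j + 1) := by
        intro j
        induction j with
        | zero => intro _; exact hcon
        | succ j ih =>
          intro hj
          by_contra hne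
          have hlt : cs L u (i - (j + 1)) < cs L u (i - (j + 1) + 1) :=
            lt_of_le_of_ne (hu _ (by omega)) hne
          have h1 := ih (by omega)
          have e1 : i - (j + 1) + 1 = i - j := by omega
          have e2 : i - (j + 1) + 2 = i - j + 1 := by omega
          refine key (i - (j + 1)) (by omega) ?_ (Or.inr ?_)
          · rw [e2, ← h1, ← e1]; exact hlt
          · rw [e1, e2]; exact h1
      have h0 : ∀ j, j ≤ N + 1 → cs L u j = cs L u 0 := by
        intro j
        induction j with
        | zero => intro _; rfl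
        | succ j ih =>
          intro hj
          rcases le_or_gt i j with h1 | h1
          · rw [← hall j h1 (by omega)]; exact ih (by omega)
          · have h2 := hall2 (i - j) (by omega)
            rw [show i - (i - j) = j by omega] at h2
            rw [← h2]; exact ih (by omega)
      have h1 := h0 (N + 1) le_rfl
      rw [cs_end] at h1
      simp only [cs] at h1
      linarith
    · push Not at hall
      obtain ⟨j, hij, hjN, hne⟩ := hall
      -- least such j
      classical
      have hex : ∃ j, i ≤ j ∧ j ≤ N ∧ cs L u j ≠ cs L u (j + 1) := ⟨j, hij, hjN, hne⟩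
      obtain ⟨h1, h2, h3⟩ := Nat.find_spec hex
      set j₀ := Nat.find hex with hj₀
      have h4 : i ≠ j₀ := by
        intro h
        rw [← h] at h3
        exact h3 hcon
      have h5 : cs L u (j₀ - 1) = cs L u (j₀ - 1 + 1) := by
        by_contra hne
        exact Nat.find_min hex (m := j₀ - 1) (by omega) ⟨by omega, by omega, hne⟩
      have e1 : j₀ - 1 + 1 = j₀ := by omega
      have e2 : j₀ - 1 + 2 = j₀ + 1 := by omega
      refine key (j₀ - 1) (by omega) ?_ (Or.inl h5)
      rw [e2, h5, e1]
      exact lt_of_le_of_ne (hu _ h2) h3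

end Pool.Agent.W757.BL
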