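import Pool.Agent.W757.BL.Defs

/-!
# Lowest and highest point
-/

set_option autoImplicit false

namespace Pool.Agent.W757.BL

open Set Filter Topology
open scoped ContDiff

theorem t_EXT : S_EXT := by
  intro x y x' y' L h hcf
  have hL := h.L0
  have hyc : Continuous y := continuous_iff_continuousAt.2 fun s => (h.dy s).continuousAt
  have hper : Function.Periodic y L := h.py
  obtain ⟨b, -, hb⟩ := isCompact_Icc.exists_isMinOn (nonempty_Icc.2 hL.le)
    (hyc.continuousOn (s := Icc 0 L))
  obtain ⟨e₀, -, he₀⟩ := isCompact_Icc.exists_isMaxOn (nonempty_Icc.2 hL.le)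
    (hyc.continuousOn (s := Icc 0 L))
  have hb' : ∀ s, y b ≤ y s := by
    intro s
    obtain ⟨r, hr, hrs⟩ := hper.exists_mem_Ico₀ hL s
    rw [hrs]
    exact hb ⟨hr.1, hr.2.le⟩
  have he₀' : ∀ s, y s ≤ y e₀ := by
    intro s
    obtain ⟨r, hr, hrs⟩ := hper.exists_mem_Ico₀ hL s
    rw [hrs]
    exact he₀ ⟨hr.1, hr.2.le⟩
  obtain ⟨e, he, hee⟩ := hper.exists_mem_Ico hL e₀ b
  have he' : ∀ s, y s ≤ y e := fun s => hee ▸ he₀' s
  have hdb : y' b = 0 := by
    have h1 : IsLocalMin y b := Eventually.of_forall hb'
    have h2 := h1.deriv_eq_zero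
    rwa [(h.dy b).deriv] at h2
  have hde : y' e = 0 := by
    have h1 : IsLocalMax y e := Eventually.of_forall he'
    have h2 := h1.deriv_eq_zero
    rwa [(h.dy e).deriv] at h2
  have hbt : ∀ t, b < t → t < b + L → y b < y t := by
    intro t h1 h2
    have h3 := h.conv b t h1 h2
    rw [hdb] at h3
    rcases (hb' t).lt_or_eq with h4 | h4
    · exact h4
    · rw [h4] at h3
      nlinarith
  have het : ∀ t, e < t → t < e + L → y t < y e := by
    intro t h1 h2
    have h3 := h.conv e t h1 h2
    rw [hde] at h3
    rcases (he' t).lt_or_eq with h4 | h4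
    · exact h4
    · rw [h4] at h3
      nlinarith
  have hbe : b < e := by
    rcases he.1.lt_or_eq with h1 | h1
    · exact h1
    · exfalso
      have h2 := hbt (b + L / 2) (by linarith) (by linarith)
      have h3 := he' (b + L / 2)
      rw [← h1] at h3
      linarith
  have heb : e < b + L := he.2
  refine ⟨b, e, hbe, heb, ?_, ?_, hdb, hde⟩
  · intro s h1 h2
    have c1 := h.conv s e h2 (by linarith)
    have c2 := h.conv s (b + L) (by linarith) (by linarith)
    rw [h.px, h.py] at c2
    have o := hcf.orient b s e h1 h2 (by linarith)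
    have p1 : 0 < y s - y b := sub_pos.2 (hbt s h1 (by linarith))
    have p2 : 0 < y e - y s := by
      have := het (s + L) (by linarith) (by linarith)
      rw [h.py] at this
      linarith
    have q := add_pos (mul_pos c1 p1) (mul_pos c2 p2)
    have q' : 0 < y' s * ((x s - x b) * (y e - y b) - (y s - y b) * (x e - x b)) := by
      nlinarith
    exact (pos_iff_pos_of_mul_pos q').2 o
  · intro s h1 h2
    have c1 := h.conv s (b + L) (by linarith) (by linarith)
    have c2 := h.conv s (e + L) (by linarith) (by linarith)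
    rw [h.px, h.py] at c1 c2
    have o := hcf.orient e s (b + L) h1 h2 (by linarith)
    rw [h.px, h.py] at o
    have p1 : 0 < y s - y b := sub_pos.2 (hbt s (by linarith) h2)
    have p2 : 0 < y e - y s := sub_pos.2 (het s h1 (by linarith))
    have q := add_pos (mul_pos c2 p1) (mul_pos c1 p2)
    have q' : 0 < (-y' s) * ((x s - x e) * (y b - y e) - (y s - y e) * (x b - x e)) := by
      nlinarith
    have := (pos_iff_pos_of_mul_pos q').2 o
    linarith

end Pool.Agent.W757.BL
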