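import Pool.Agent.W757.BL.Flip
import Pool.Agent.W757.BL.DYN
import Pool.Agent.W757.BL.Ext
import Pool.Agent.W22.BL.Ori
import Pool.Agent.W22.BL.Cf
import Pool.Agent.W22.BL.Fam
import Pool.Agent.W816.BL.FV
import Pool.Agent.W216.BL.Aub
import Pool.Agent.W930.BL.Cnv
import Pool.Agent.W405.BLGC
import Pool.Agent.W816.BL.PF
import Pool.Agent.W335.BL.ED
import Pool.Agent.W216.BL.Pan
import Pool.Agent.W696.BL.ND
import Pool.Agent.W216.BL.Ift
import Pool.Agent.W72.BL.Gan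
import Pool.Agent.W935.BL.Jmp
import Pool.Agent.W293.BL.Law
import Pool.Agent.W293.BL.Conic
import Pool.Agent.W699.BLEll
import Pool.Agent.W714.BL.Tab
import Pool.Agent.W916.BL.Stp
import Pool.Agent.W563.BL.SMO
import Pool.Agent.W714.BL.Rlw
import Pool.Agent.W64.BL.Near
import Pool.Agent.W797.BL.Rot
import Pool.Agent.W688.BL.Col
import Pool.Agent.W311.BL.CAL
import Pool.Agent.W757.BL.Exm
import Pool.Agent.W237.BL.HIT

/-!
# Stretched billiard tables: all parts together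
-/

set_option autoImplicit false

namespace Pool.Agent.W757.BL

open Set Filter Topology
open scoped ContDiff

theorem pCF : S_CF := W22.BL.t_CF W22.BL.t_ORI
theorem pFV : S_FV := W816.BL.t_FV
theorem pAUB : S_AUB := W216.BL.t_AUB pFV
theorem pFAM : S_FAM := W22.BL.t_FAM pFV pAUB
theorem pCNV : S_CNV := W930.BL.t_CNV
theorem pGC : S_GC := W405.BLGC.t_GC pCF t_EXM pCNV
theorem pND : S_ND := W696.BL.t_ND W816.BL.t_PF W335.BL.t_ED
theorem pGAN : S_GAN :=
  W72.BL.Gan.t_GAN pCF t_EXM pCNV pAUB W216.BL.t_PAN pND W216.BL.t_IFT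
theorem pDYN : S_DYN := t_DYN W935.BL.Jmp.main W293.BL.t_LAW W293.BL.t_MER
theorem pCAL : S_CAL := W311.BL.t_CAL
theorem pCOL : S_COL :=
  W688.BL.t_COL W64.BL.t_NEAR W916.BL.t_STP W563.BL.t_SMO W714.BL.t_RLW W237.BL.HIT.main W797.BL.t_ROT pCAL

end Pool.Agent.W757.BL
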