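import Pool.Agent.W757.BL.Asm

/-!
# Exchanging the coordinates; finiteness
-/

set_option autoImplicit false

namespace Pool.Agent.W757.BL

open Set Filter Topology
open scoped ContDiff Pointwise

theorem cv_flip {x y x' y' : ℝ → ℝ} {L : ℝ} (h : Cv x y x' y' L) :
    Cv (fun s => -y s) x (fun s => -y' s) x' L where
  L0 := h.L0
  dx s := (h.dy s).neg
  dy := h.dx
  cx := h.cy.neg
  cy := h.cx
  px s := by simp only [h.py]
  py := h.px
  conv s r h1 h2 := by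
    have := h.conv s r h1 h2
    nlinarith

theorem hh_flip (x y : ℝ → ℝ) {t : ℝ} (ht : 0 < t) (a b : ℝ) :
    hh (fun s => t⁻¹ * (-y s)) x a b = t⁻¹ * hh (fun s => t * x s) y a b := by
  have h0 : t ≠ 0 := ht.ne'
  unfold hh
  have h1 : (t⁻¹ * -y b - t⁻¹ * -y a) ^ 2 + (x b - x a) ^ 2 =
      (t⁻¹) ^ 2 * ((t * x b - t * x a) ^ 2 + (y b - y a) ^ 2) := by
    field_simp
    ring
  rw [h1, Real.sqrt_mul (by positivity), Real.sqrt_sq (by positivity)]

theorem GG_flip (x y : ℝ → ℝ) (L : ℝ) (N : ℕ) {t : ℝ} (ht : 0 < t) (a : ℝ) :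
    GG (fun s => -y s) x L N t⁻¹ a = t⁻¹ * GG x y L N t a := by
  have h1 : ∀ u : Fin N → ℝ, PP (fun s => t⁻¹ * (-y s)) x L a u =
      t⁻¹ * PP (fun s => t * x s) y L a u := by
    intro u
    unfold PP
    rw [Finset.mul_sum]
    exact Finset.sum_congr rfl fun i _ => hh_flip x y ht _ _
  unfold GG
  have h2 : ((fun u : Fin N → ℝ => PP (fun s => t⁻¹ * (-y s)) x L a u) '' KK L N) =
      t⁻¹ • ((fun u : Fin N → ℝ => PP (fun s => t * x s) y L a u) '' KK L N) := by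
    rw [← image_smul, image_image]
    refine image_congr fun u _ => ?_
    rw [h1 u, smul_eq_mul]
  rw [h2, Real.sSup_smul_of_nonneg (by positivity), smul_eq_mul]

theorem mem_flip {x y : ℝ → ℝ} {L : ℝ} {N : ℕ} {t : ℝ} (ht : 0 < t)
    (h : ∀ a b, GG x y L N t a = GG x y L N t b) :
    ∀ a b, GG (fun s => -y s) x L N t⁻¹ a = GG (fun s => -y s) x L N t⁻¹ b := by
  intro a b
  rw [GG_flip x y L N ht, GG_flip x y L N ht, h a b]

theorem ellipse_flip {x y : ℝ → ℝ}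
    (h : IsEllipse (range fun s : ℝ => (⟨-y s, x s⟩ : ℂ))) :
    IsEllipse (range fun s : ℝ => (⟨x s, y s⟩ : ℂ)) := by
  obtain ⟨c, a, b, d, ha, hd, hS⟩ := h
  have hd0 : 0 < d := by
    by_contra hn
    push Not at hn
    nlinarith [mul_nonneg ha.le (sub_nonneg.2 hn), sq_nonneg b]
  refine ⟨⟨c.im, -c.re⟩, d, -b, a, hd0, by nlinarith, ?_⟩
  ext z
  have h1 : z ∈ (range fun s : ℝ => (⟨x s, y s⟩ : ℂ)) ↔
      (⟨-z.im, z.re⟩ : ℂ) ∈ (range fun s : ℝ => (⟨-y s, x s⟩ : ℂ)) := by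
    simp only [mem_range, Complex.ext_iff]
    constructor
    · rintro ⟨s, h1, h2⟩
      exact ⟨s, by simpa using h2, h1⟩
    · rintro ⟨s, h1, h2⟩
      exact ⟨s, h2, by simpa using h1⟩
  rw [h1, hS]
  simp only [mem_ofPred_eq]
  have h2 : a * (-z.im - c.re) ^ 2 + 2 * b * (-z.im - c.re) * (z.re - c.im) + d * (z.re - c.im) ^ 2
      = d * (z.re - c.im) ^ 2 + 2 * -b * (z.re - c.im) * (z.im - -c.re) +
        a * (z.im - -c.re) ^ 2 := by ring
  rw [h2]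

/-- The exceptional parameters of each period are finite in number. -/
theorem finite_aux (hCF : S_CF) (hFAM : S_FAM) (hGC : S_GC) (hACC : S_ACC)
    (hEXT : S_EXT) (hDYN : S_DYN) (hCON : S_CON) (hELL : S_ELL)
    {x y x' y' : ℝ → ℝ} {L : ℝ} (h : Cv x y x' y' L) (hx : AnalyticOnNhd ℝ x univ)
    (hy : AnalyticOnNhd ℝ y univ) (hE : ¬ IsEllipse (range fun s : ℝ => (⟨x s, y s⟩ : ℂ)))
    (N : ℕ) (hN : 1 ≤ N) :
    {s : ℝ | 0 < s ∧ ∀ a b, GG x y L N s a = GG x y L N s b}.Finite := by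
  set E : Set ℝ := {s : ℝ | 0 < s ∧ ∀ a b, GG x y L N s a = GG x y L N s b} with hEdef
  obtain ⟨δ, hδ, hδE⟩ := flat_aux hCF hFAM hGC hEXT hDYN hCON hELL h hx hy hE N hN
  obtain ⟨δ', hδ', hδE'⟩ := flat_aux hCF hFAM hGC hEXT hDYN hCON hELL (cv_flip h) hy.neg hx
    (fun hc => hE (ellipse_flip hc)) N hN
  have hacc : ∀ t, 0 < t → AccPt t (𝓟 E) → ∀ᶠ s in 𝓝 t, s ∈ E :=
    fun t ht ha => hACC x y x' y' L N t h hx hy hN ht ha
  have hlow : ∀ t ∈ E, δ ≤ t := by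
    intro t ht
    by_contra hn
    push Not at hn
    exact hδE t ht.1 hn ht
  have hup : ∀ t ∈ E, t ≤ δ'⁻¹ := by
    intro t ht
    by_contra hn
    push Not at hn
    refine hδE' t⁻¹ (inv_pos.2 ht.1) ?_ ⟨inv_pos.2 ht.1, mem_flip ht.1 ht.2⟩
    rw [inv_lt_comm₀ ht.1 hδ']
    exact hn
  by_contra hinf
  have hinf : E.Infinite := hinf
  obtain ⟨t₀, ht₀, ha⟩ := hinf.exists_accPt_of_subset_isCompact (isCompact_Icc (a := δ) (b := δ'⁻¹))
    (fun t ht => ⟨hlow t ht, hup t ht⟩)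
  have ht₀0 : 0 < t₀ := lt_of_lt_of_le hδ ht₀.1
  -- the set of accumulation points is closed and open
  have hdown : ∀ s, 0 < s → s ≤ t₀ → AccPt s (𝓟 E) := by
    have hcl : IsClosed {s : ℝ | AccPt s (𝓟 E)} := isClosed_derivedSet E
    set A : Set ℝ := {s : ℝ | s ≤ t₀ ∧ ∀ r, s ≤ r → r ≤ t₀ → AccPt r (𝓟 E)} with hA
    intro s hs hst
    by_contra hns
    have hne : {r : ℝ | AccPt r (𝓟 E)} ⊆ Ici δ := by
      intro r hr
      by_contra hrn
      have hrn : r < δ := not_le.1 hrn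
      have := accPt_iff_frequently.1 hr
      have h2 : ∀ᶠ z in 𝓝 r, z < δ := gt_mem_nhds hrn
      obtain ⟨z, ⟨_, hz⟩, hz'⟩ := (this.and_eventually h2).exists
      exact absurd (hlow z hz) (not_le.2 hz')
    -- least element of the closed set of accumulation points
    have hbdd : BddBelow {r : ℝ | AccPt r (𝓟 E)} := ⟨δ, fun r hr => hne hr⟩
    have hmem := hcl.csInf_mem ⟨t₀, ha⟩ hbdd
    set i₀ := sInf {r : ℝ | AccPt r (𝓟 E)} with hi₀
    have hi0 : 0 < i₀ := lt_of_lt_of_le hδ (hne hmem)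
    have hev : ∀ᶠ s in 𝓝 i₀, s ∈ E := hacc i₀ hi0 hmem
    have hopen : ∀ᶠ s in 𝓝 i₀, AccPt s (𝓟 E) := by
      filter_upwards [eventually_eventually_nhds.2 hev] with s hs
      rw [accPt_iff_frequently]
      have h3 : ∃ᶠ z in 𝓝[≠] s, z ∈ E := (hs.filter_mono nhdsWithin_le_nhds).frequently
      exact (frequently_nhdsWithin_iff.1 h3).mono fun z hz => ⟨hz.2, hz.1⟩
    obtain ⟨ε, hε, hball⟩ := Metric.eventually_nhds_iff.1 hopen
    have h4 : AccPt (i₀ - ε / 2) (𝓟 E) := hball (by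
      rw [Real.dist_eq, show i₀ - ε / 2 - i₀ = -(ε / 2) by ring, abs_neg, abs_of_pos (by linarith)]
      linarith)
    have h5 : i₀ ≤ i₀ - ε / 2 := csInf_le hbdd h4
    linarith
  have hlt : ∃ s, 0 < s ∧ s < δ ∧ s ≤ t₀ := ⟨min (δ / 2) t₀, lt_min (by linarith) ht₀0,
    lt_of_le_of_lt (min_le_left _ _) (by linarith), min_le_right _ _⟩
  obtain ⟨s, hs0, hsδ, hst⟩ := hlt
  have := (hacc s hs0 (hdown s hs0 hst)).self_of_nhds
  exact absurd (hlow s this) (not_le.2 hsδ)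

end Pool.Agent.W757.BL
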